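import Mathlib
import Pool.Agent.K1H80.AV.Main

set_option autoImplicit false

/-!
# MP_44a246_nt: the inequality of Vojta over function fields for blow-ups of constant abelian
# varieties, all algebraic points

`F` is a function field of one variable over an algebraically closed field `k` of characteristic
zero and `A` is any abelian variety over `k`, of any dimension, embedded into a projective space (the
structure `AbelianVariety` of `Pool.Agent.K1H80.AV.Def`). `W` is any closed subscheme of `A` over `F`
(not necessarily over `k`) of codimension at least two. Then `h_W(P)` is at most `ε h(P)` plus a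
constant times the sum of the degree of `L` and the logarithmic discriminant of `L`, for the points
`P` over all finite extensions `L` of `F`, outside a proper closed subset.

This is the inequality of the conjecture, with `D = 0`, for the varieties `X` which are smooth,
projective and have a birational morphism to `A`: the canonical divisor of such an `X` is effective,
with image of codimension at least two, and so is at most a multiple of the exceptional divisor of the
blow-up of such a subscheme `W`.

All heights are those of `L`, that is, `[L : F]` times the heights of the conjecture.
-/

namespace Pool.Agent.Results.MP_44a246_nt.CodimTwoConstantAbelian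

open MvPolynomial FF Pool.Agent.W603.PV Pool.Agent.K1H80.AV

section defs

variable {k F L : Type} [Field k] [Field F] [Field L] [Algebra k L] [Algebra F L] {N : ℕ}

/-- The minimum of the orders of the nonzero entries of `x` at the place `P`. -/
noncomputable def minOrd (P : Place k L) (x : Fin N → L) : ℤ :=
  ⨅ c : {c // x c ≠ 0}, P.ord (x c.1)

variable (k) in
/-- The height of the point with the homogeneous coordinates `x`: minus the sum over all places of
the minimum of the orders of the coordinates. -/
noncomputable def height (x : Fin N → L) : ℤ := -∑ᶠ P : Place k L, minOrd P x

/-- The local height at `P` with respect to the subscheme with the equations `G j = 0`, `G j` of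
degree `d j`: the minimum of the orders of `G j`, computed with coordinates of minimal order zero. -/
noncomputable def localHeight {w : ℕ} (G : Fin w → MvPolynomial (Fin N) F) (d : Fin w → ℕ)
    (P : Place k L) (x : Fin N → L) : ℤ :=
  ⨅ j : {j // aeval x (G j) ≠ 0}, (P.ord (aeval x (G j.1)) - d j.1 * minOrd P x)

variable (k) in
/-- The height `h_W(x)` with respect to the subscheme `W` with the equations `G j = 0`: the sum of all
local heights. -/
noncomputable def subschemeHeight {w : ℕ} (G : Fin w → MvPolynomial (Fin N) F) (d : Fin w → ℕ)
    (x : Fin N → L) : ℤ :=
  ∑ᶠ P : Place k L, localHeight G d P x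

end defs

/-- **Main theorem.** Let `F` be a function field of one variable over an algebraically closed field
`k` of characteristic zero, `A` an abelian variety over `k` in projective space, `W` a subscheme of
`A` over `F` of codimension at least two and `ε > 0`. There are a form `f` over `F` which does not
vanish on `A` and a constant `C` such that for all finite extensions `L` of `F` and all points `P` of
`A` over `L` with `f(P) ≠ 0` and outside `W` the inequality
`h_W(P) ≤ ε h(P) + C ([L : F] + disc(L / F))` holds. -/
theorem result {k F : Type} [Field k] [IsAlgClosed k] [CharZero k] [Field F] [Algebra k F]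
    [IsFF k F] {N w : ℕ} (A : AbelianVariety k N) (G : Fin w → MvPolynomial (Fin N) F)
    (d : Fin w → ℕ) (hG : ∀ j, (G j).IsHomogeneous (d j)) (hW : HasCodimTwo A G)
    (ε : ℝ) (hε : 0 < ε) :
    ∃ (f : MvPolynomial (Fin N) F) (m : ℕ) (C : ℝ), f.IsHomogeneous m ∧ NonVanishing A f ∧
      ∀ (L : Type) [Field L] [Algebra k L] [Algebra F L] [IsScalarTower k F L]
        [FiniteDimensional F L] [IsFF k L] (x : Fin N → L), IsCoord A.eqn x →
        aeval x f ≠ 0 → (∃ j, aeval x (G j) ≠ 0) →
          (subschemeHeight k G d x : ℝ) ≤
            ε * height k x + C * (Module.finrank F L + disc k F L) := by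
  classical
  obtain ⟨f, m, C, hf1, hf2, hmain⟩ := avMain (k := k) (F := F) A G d hG 0
    (Or.inr ⟨rfl, hW⟩) ε hε
  refine ⟨f, m, C, hf1, hf2, ?_⟩
  intro L _ _ _ _ _ _ x hxA hf hx
  have h1 := hmain L x hxA hf hx
  rw [Nat.cast_zero, zero_mul, zero_add] at h1
  exact h1

end Pool.Agent.Results.MP_44a246_nt.CodimTwoConstantAbelian
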