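import Mathlib
import Pool.Agent.K1H80.AV.Main

set_option autoImplicit false

/-!
# MP_44a246_nt: the truncated inequality of Vojta over function fields, for constant abelian
# varieties, all reduced divisors and all algebraic points

`F` is a function field of one variable over an algebraically closed field `k` of characteristic
zero and `A` is any abelian variety over `k`, of any dimension, embedded into a projective space (the
structure `AbelianVariety` of `Pool.Agent.K1H80.AV.Def`; its canonical class is zero). `D` is any
closed subscheme of `A` over `F` (not necessarily over `k`), given by homogeneous equations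
`G j = 0`, which is reduced in codimension one; these are all reduced effective divisors, in
particular all divisors with normal crossings (and also subschemes of higher codimension).

The points are those of all finite extensions `L` of `F`, of unbounded degree. The inequality is that
of the conjecture: `h_D(P)` is at most the truncated counting function `N^(1)_S(D, P)`, in which each
place counts once, plus `ε h(P)` plus a constant times the sum of the degree of `L` and the
logarithmic discriminant of `L`. For `L = F` the last term is a constant, as in the conjecture.

All heights are those of `L`, that is, `[L : F]` times the heights of the conjecture.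

The proof works in an ultraproduct of the fields `L`, with a derivation. The differential coordinate
ring of a generic point of `A` is simple over the small field, since its logarithmic derivative is in
the small field; auxiliary functions give the bound for the number of common zeros.
-/

namespace Pool.Agent.Results.MP_44a246_nt.ConstantAbelianVarieties

open MvPolynomial FF Pool.Agent.W603.PV Pool.Agent.K1H80.AV

section defs

variable {k F L : Type} [Field k] [Field F] [Field L] [Algebra k L] [Algebra F L] {N : ℕ}

/-- The minimum of the orders of the nonzero entries of `x` at the place `P`. -/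
noncomputable def minOrd (P : Place k L) (x : Fin N → L) : ℤ :=
  ⨅ c : {c // x c ≠ 0}, P.ord (x c.1)

variable (k) in
/-- The height of the point with the homogeneous coordinates `x`: minus the sum over all places of
the minimum of the orders of the coordinates. -/
noncomputable def height (x : Fin N → L) : ℤ := -∑ᶠ P : Place k L, minOrd P x

/-- The local height at `P` with respect to the subscheme with the equations `G j = 0`, `G j` of
degree `d j`: the minimum of the orders of `G j`, computed with coordinates of minimal order zero. -/
noncomputable def localHeight {w : ℕ} (G : Fin w → MvPolynomial (Fin N) F) (d : Fin w → ℕ)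
    (P : Place k L) (x : Fin N → L) : ℤ :=
  ⨅ j : {j // aeval x (G j) ≠ 0}, (P.ord (aeval x (G j.1)) - d j.1 * minOrd P x)

variable (k) in
/-- The height `h_D(x)`: the sum of all local heights. -/
noncomputable def divisorHeight {w : ℕ} (G : Fin w → MvPolynomial (Fin N) F) (d : Fin w → ℕ)
    (x : Fin N → L) : ℤ :=
  ∑ᶠ P : Place k L, localHeight G d P x

/-- The truncated counting function `N^(1)_S(D, x)`: the number of the places of `L`, not over a place
in `S`, at which the local height of `x` with respect to `D` is positive. -/
noncomputable def truncatedCounting [Algebra k F] [IsScalarTower k F L] [IsAlgClosed k]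
    [CharZero k] [IsFF k F] [IsFF k L] {w : ℕ} (G : Fin w → MvPolynomial (Fin N) F)
    (d : Fin w → ℕ) (S : Finset (Place k F)) (x : Fin N → L) : ℕ :=
  {P : Place k L | under F P ∉ S ∧ 0 < localHeight G d P x}.ncard

end defs

/-- **Main theorem.** Let `F` be a function field of one variable over an algebraically closed field
`k` of characteristic zero, `A` an abelian variety over `k` in projective space, `D` a subscheme of
`A` over `F` which is reduced in codimension one, `S` a finite set of places of `F` and `ε > 0`. There
are a form `f` over `F` which does not vanish on `A` and a constant `C` such that for all finite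
extensions `L` of `F` and all points `P` of `A` over `L` with `f(P) ≠ 0` and outside `D` the truncated
inequality of Vojta `h_D(P) ≤ N^(1)_S(D, P) + ε h(P) + C ([L : F] + disc(L / F))` holds. -/
theorem result {k F : Type} [Field k] [IsAlgClosed k] [CharZero k] [Field F] [Algebra k F]
    [IsFF k F] {N w : ℕ} (A : AbelianVariety k N) (G : Fin w → MvPolynomial (Fin N) F)
    (d : Fin w → ℕ) (hG : ∀ j, (G j).IsHomogeneous (d j)) (hD : IsReducedInCodimOne A G)
    (S : Finset (Place k F)) (ε : ℝ) (hε : 0 < ε) :
    ∃ (f : MvPolynomial (Fin N) F) (m : ℕ) (C : ℝ), f.IsHomogeneous m ∧ NonVanishing A f ∧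
      ∀ (L : Type) [Field L] [Algebra k L] [Algebra F L] [IsScalarTower k F L]
        [FiniteDimensional F L] [IsFF k L] (x : Fin N → L), IsCoord A.eqn x →
        aeval x f ≠ 0 → (∃ j, aeval x (G j) ≠ 0) →
          (divisorHeight k G d x : ℝ) ≤
            truncatedCounting G d S x + ε * height k x + C * (Module.finrank F L + disc k F L) := by
  classical
  obtain ⟨f, m, C, hf1, hf2, hmain⟩ := avMain (k := k) (F := F) A G d hG 1
    (Or.inl ⟨rfl, hD⟩) ε hε
  set c0 : ℤ := ∑ v ∈ S, Pool.Agent.W603.LV.hgt k (Pool.Agent.W603.LV.unif v) with hc0
  have hc0' : 0 ≤ c0 := Finset.sum_nonneg fun v _ => Pool.Agent.W603.LV.hgt_nonneg _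
  refine ⟨f, m, C + c0, hf1, hf2, ?_⟩
  intro L _ _ _ _ _ _ x hxA hf hx
  have h2 : (divisorHeight k G d x : ℝ) ≤
      ({P : Place k L | 0 < localHeight G d P x}.ncard : ℝ) +
        ε * height k x + C * (Module.finrank F L + disc k F L) := by
    have h1 := hmain L x hxA hf hx
    rw [Nat.cast_one, one_mul] at h1
    exact h1
  -- the places over `S`
  have h4 : {P : Place k L | 0 < localHeight G d P x} ⊆
      {P : Place k L | under F P ∉ S ∧ 0 < localHeight G d P x} ∪
        {P : Place k L | under F P ∈ S} := by
    intro P hP
    by_cases h : under F P ∈ S
    · exact Or.inr h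
    · exact Or.inl ⟨h, hP⟩
  have hx0 : ∃ c, x c ≠ 0 := by
    obtain ⟨c, hc⟩ := hxA.1
    exact ⟨c, hc.ne_zero⟩
  have hfin : {P : Place k L | 0 < localHeight G d P x}.Finite := by
    refine (Pool.Agent.Y731.FG.locH_finite (k := k) (d := d) hx0 hx).subset ?_
    intro P hP
    exact ne_of_gt hP
  have hfin2 : {P : Place k L | under F P ∈ S}.Finite := finite_over_set (Finset.finite_toSet S)
  have h6 : {P : Place k L | 0 < localHeight G d P x}.ncard ≤
      truncatedCounting G d S x + {P : Place k L | under F P ∈ S}.ncard := by
    refine (Set.ncard_le_ncard h4 ((hfin.subset fun P hP => hP.2).union hfin2)).trans ?_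
    exact Set.ncard_union_le _ _
  have h7 : (({P : Place k L | under F P ∈ S}.ncard : ℕ) : ℤ) ≤ Module.finrank F L * c0 :=
    card_over_le S
  have h8 : ({P : Place k L | 0 < localHeight G d P x}.ncard : ℝ) ≤
      truncatedCounting G d S x + Module.finrank F L * c0 := by
    have h9 : ({P : Place k L | 0 < localHeight G d P x}.ncard : ℝ) ≤
        truncatedCounting G d S x + ({P : Place k L | under F P ∈ S}.ncard : ℝ) := by
      exact_mod_cast h6
    have h10 : ({P : Place k L | under F P ∈ S}.ncard : ℝ) ≤ Module.finrank F L * c0 := by
      exact_mod_cast h7
    linarith
  have h11 : (0 : ℝ) ≤ disc k F L := by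
    exact_mod_cast Pool.Agent.Y731.FG.disc_nonneg (k := k) (F := F) (L := L)
  have h13 : (0 : ℝ) ≤ c0 := by exact_mod_cast hc0'
  have h14 : (C + c0 : ℝ) * (Module.finrank F L + disc k F L) =
      C * (Module.finrank F L + disc k F L) + Module.finrank F L * c0 + c0 * disc k F L := by ring
  have h15 : (0 : ℝ) ≤ c0 * disc k F L := by positivity
  rw [h14]
  linarith

end Pool.Agent.Results.MP_44a246_nt.ConstantAbelianVarieties
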