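import Mathlib
import Pool.Agent.Results.MP_44a246_nt.CoversOfProjectiveSpace
import Pool.Agent.K1H84.TV.Typ
import Pool.Agent.K1H84.VT.Dir

/-!
# The truncated Vojta inequality over the rational approximations of typical points

The setting is that of the starting file `CoversOfProjectiveSpace`: `X` is a smooth projective variety over
`ℚ`, `π : X → ℙⁿ` a generically finite morphism of degree `N` (with finite part given by the normal domain
`A`, finite over `ℚ[x_0, …, x_n]`), `D` a reduced divisor on `X`; the `F_j = 0` are the components of the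
branch divisor and of the image of `D`, `D_j` (with equations `y_j = 0`) is the part of `D` over `F_j = 0` and
`E_j` the ideal of the rest of the preimage of `F_j = 0`, of degree `s_j`; the `F_j` are linear or quadratic
forms or have few coincidences (`m_j = k_j`), or all their preimage is in `D` (then `m_j = 1` is possible).
The inequality at a point `P` of degree `N` over `x ∈ ℙⁿ(ℚ)` is
`κ h(x) + m_S(G, x) + Λ ∑_l h_l(x) ≤ N_T^{(1)}(D, P) + d(P)`, `κ < ∑ m_j (1 - s_j / N)`, `G` any form; it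
implies `h_{K_X + D}(P) ≤ N_T^{(1)}(D, P) + d(P) + ε h(P)` if `∑ (k_j - m_j) (1 - s_j / N) < n + 1`.

We prove that for a typical real point `ξ` (off ONE null set) it holds for ALL varieties `X`, covers `π` and
divisors `D`, all `G`, `S`, `T`, and ALL points of degree `N` over all but finitely many of the infinitely
many `x ∈ ℙⁿ(ℚ)` with `|ξ - x| ≤ c H(x) ^ (-(1 + 1/n))`: there is no exceptional set. The same holds for
typical points of arbitrary metric spaces (such as `ℙⁿ(ℚ_p)`), with respect to arbitrary Hausdorff measures.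
-/

set_option autoImplicit false

namespace Pool.Agent.Results.MP_44a246_nt.TypicalPoints

open MvPolynomial NumberField IsDedekindDomain MeasureTheory Filter
open Pool.Agent.Results.MP_44a246_nt.CoversOfProjectiveSpace

/-- The height of the point of `ℙⁿ(ℚ)` with the primitive coordinates `x`. -/
def height {n : ℕ} (x : Fin (n + 1) → ℤ) : ℕ := Finset.univ.sup fun i => (x i).natAbs

/-- The rational points `x` of `ℙⁿ` over which there is a point `P` of degree `N` (residue field `K`,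
given by `φ : A → K`) violating the inequality
`κ h(x) + m_S(G, x) + Λ ∑ l, h_l(x) ≤ N_T^{(1)}(D, P) + d(P)`. -/
def Violators {n q t : ℕ} {A : Type} [CommRing A] [Algebra (MvPolynomial (Fin (n + 1)) ℚ) A]
    (N : ℕ) (T : Finset ℕ) (F : Fin q → MvPolynomial (Fin (n + 1)) ℤ) (u : Fin q → ℕ)
    (y : ∀ j, Fin (u j) → A) (G : MvPolynomial (Fin (n + 1)) ℤ) (d : ℕ) (S : Finset ℕ)
    (F' G' : Fin t → MvPolynomial (Fin (n + 1)) ℤ) (k' e' : Fin t → ℕ) (Λ κ : ℝ) :
    Set (Fin (n + 1) → ℤ) :=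
  {x | ∃ (K : Type) (_ : Field K) (_ : NumberField K) (φ : A →+* K),
    Function.Surjective φ ∧ Module.finrank ℚ K = N ∧
    (∀ i, φ (algebraMap (MvPolynomial (Fin (n + 1)) ℚ) A (X i)) = x i) ∧
    truncated T F u y x K φ + logDisc K < κ * Real.log (height x) + proximity G d S x +
      Λ * ∑ l, idealHeight (F' l) (G' l) (k' l) (e' l) x}

/-- The assumptions on the cover, on the divisors and on `κ` (those of `CoversOfProjectiveSpace`): the `F j`
are irreducible forms of degrees `k j`, pairwise different, the ideal `E j` of degree at most `s j` over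
`F j = 0` is a part of the preimage of `F j = 0` which contains the complement of `D_j`, the numbers `m j` are
the contributions of the components, `G` is a form of degree `d`, `S` and `T` are finite sets of primes, the
ideals `(F' l, G' l)` are of codimension two, and `κ < ∑ j, m j (1 - s j / N)`. -/
def Admissible {n q t : ℕ} {A : Type} [CommRing A] [Algebra (MvPolynomial (Fin (n + 1)) ℚ) A]
    (N : ℕ) (T : Finset ℕ) (F : Fin q → MvPolynomial (Fin (n + 1)) ℤ) (u : Fin q → ℕ)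
    (y : ∀ j, Fin (u j) → A) (G : MvPolynomial (Fin (n + 1)) ℤ) (d : ℕ) (S : Finset ℕ)
    (F' G' : Fin t → MvPolynomial (Fin (n + 1)) ℤ) (k' e' : Fin t → ℕ) (κ : ℝ) : Prop :=
  ∃ (k : Fin q → ℕ) (E : Fin q → Ideal A) (s m : Fin q → ℕ),
    Module.finrank (MvPolynomial (Fin (n + 1)) ℚ) A = N ∧
    (∀ j, (F j).IsHomogeneous (k j)) ∧
    (∀ j, Irreducible (map (Int.castRingHom ℚ) (F j))) ∧
    (∀ i j, i ≠ j →
      ¬ Associated (map (Int.castRingHom ℚ) (F i)) (map (Int.castRingHom ℚ) (F j))) ∧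
    (∀ j, algebraMap (MvPolynomial (Fin (n + 1)) ℚ) A (map (Int.castRingHom ℚ) (F j)) ∈ E j) ∧
    (∀ j i, ∀ e ∈ E j, y j i * e ∈ (Ideal.span
      {algebraMap (MvPolynomial (Fin (n + 1)) ℚ) A (map (Int.castRingHom ℚ) (F j))}).radical) ∧
    (∀ j, s j ≤ N) ∧ (∀ j, SheetsLE (E j) (map (Int.castRingHom ℚ) (F j)) (s j)) ∧
    (∀ j, (m j = k j ∧ (k j ≤ 2 ∨ FewCoincidences (F j) (k j))) ∨
      (E j = ⊤ ∧ (m j ≤ 1 ∨ (m j ≤ k j ∧ k j ≤ 2) ∨ FewCoincidences (F j) (m j)))) ∧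
    G.IsHomogeneous d ∧ G ≠ 0 ∧ (∀ p ∈ S, p.Prime) ∧ (∀ p ∈ T, p.Prime) ∧
    (∀ l, (F' l).IsHomogeneous (k' l) ∧ (G' l).IsHomogeneous (e' l)) ∧
    (∀ l, Irreducible (map (Int.castRingHom ℚ) (F' l))) ∧
    (∀ l, ¬ map (Int.castRingHom ℚ) (F' l) ∣ map (Int.castRingHom ℚ) (G' l)) ∧
    κ < ∑ j, (m j : ℝ) * (1 - (s j : ℝ) / N)

/-- For ALL covers, divisors, forms `G`, finite sets of primes, codimension two ideals, `Λ` and `κ` as in
`Admissible` there is an `η > 0` such that for every `ξ` outside of `E` and every `c` the inequality holds at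
all points of degree `N` over all but finitely many of the points in `Z ξ c η`. -/
def HoldsNear (n : ℕ) {M : Type} (E : Set M) (Z : M → ℝ → ℝ → Set (Fin (n + 1) → ℤ)) : Prop :=
  ∀ (A : Type) [CommRing A] [IsDomain A] [IsIntegrallyClosed A]
    [Algebra (MvPolynomial (Fin (n + 1)) ℚ) A] [FaithfulSMul (MvPolynomial (Fin (n + 1)) ℚ) A]
    [Module.Finite (MvPolynomial (Fin (n + 1)) ℚ) A] (N q t : ℕ) (T : Finset ℕ)
    (F : Fin q → MvPolynomial (Fin (n + 1)) ℤ) (u : Fin q → ℕ)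
    (y : ∀ j, Fin (u j) → A) (G : MvPolynomial (Fin (n + 1)) ℤ) (d : ℕ) (S : Finset ℕ)
    (F' G' : Fin t → MvPolynomial (Fin (n + 1)) ℤ) (k' e' : Fin t → ℕ) (Λ : ℕ) (κ : ℝ),
    Admissible N T F u y G d S F' G' k' e' κ →
      ∃ η : ℝ, 0 < η ∧ ∀ ξ : M, ξ ∉ E → ∀ c : ℝ,
        (Z ξ c η ∩ Violators N T F u y G d S F' G' k' e' Λ κ).Finite

/-- The rational points `x` of `ℙⁿ` whose image `φ x` in a metric space has distance at most
`c H(x) ^ (-a)` from `ξ`. -/
def Close {n : ℕ} {M : Type} [MetricSpace M] (φ : (Fin (n + 1) → ℤ) → M) (ξ : M) (c a : ℝ) :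
    Set (Fin (n + 1) → ℤ) :=
  {x | Finset.univ.gcd x = 1 ∧ dist ξ (φ x) ≤ c * (height x : ℝ) ^ (-a)}

/-- The rational points `(x_0 : ⋯ : x_n)`, `x_0 ≠ 0`, of `ℙⁿ` with distance at most `c H(x) ^ (-a)` from the
point `ξ` of `ℝⁿ ⊂ ℙⁿ(ℝ)` (for the maximum norm). -/
def Near {n : ℕ} (ξ : Fin n → ℝ) (c a : ℝ) : Set (Fin (n + 1) → ℤ) :=
  {x | Finset.univ.gcd x = 1 ∧ x 0 ≠ 0 ∧ ∀ i, |ξ i - x i.succ / x 0| ≤ c * (height x : ℝ) ^ (-a)}

theorem one_le_height {n : ℕ} (x : Fin (n + 1) → ℤ) (hx : Finset.univ.gcd x = 1) : 1 ≤ height x := by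
  by_contra h
  have h0 : height x = 0 := by omega
  have h1 : ∀ i, x i = 0 := by
    intro i
    have h2 : (x i).natAbs ≤ height x := Finset.le_sup (f := fun i => (x i).natAbs) (Finset.mem_univ i)
    omega
  have h2 : Finset.univ.gcd x = 0 := by
    rw [Finset.gcd_eq_zero_iff]
    intro i _
    exact h1 i
  omega

theorem exists_height {n : ℕ} (x : Fin (n + 1) → ℤ) : ∃ l, (height x : ℝ) ≤ |(x l : ℝ)| := by
  obtain ⟨l, -, hl⟩ := Finset.exists_mem_eq_sup (Finset.univ : Finset (Fin (n + 1)))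
    Finset.univ_nonempty fun i => (x i).natAbs
  refine ⟨l, ?_⟩
  unfold height
  rw [hl, Nat.cast_natAbs]
  push_cast
  exact le_rfl

theorem metric (n : ℕ) {M : Type} [MetricSpace M] [MeasurableSpace M] [BorelSpace M]
    (φ : (Fin (n + 1) → ℤ) → M) (s : ℝ) (hs : 0 < s) :
    ∃ E : Set M, μH[s] E = 0 ∧ HoldsNear n E (fun ξ c η => Close φ ξ c (((n : ℝ) + 1) / s - η)) := by
  obtain ⟨E, hE0, hE⟩ := Pool.Agent.K1H84.TV.typical φ hs
  refine ⟨E, hE0, ?_⟩
  intro A _ _ _ _ _ _ N q t T F u y G d S F' G' k' e' Λ κ hadm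
  obtain ⟨k, I, s', m, g1, g2, g3, g4, g5, g6, g7, g8, g9, g10, g11, g12, g13, g14, g15, g16, g17⟩ := hadm
  obtain ⟨κ', hκ1, hκ2⟩ := exists_rat_btwn g17
  obtain ⟨i, hi⟩ := Pool.Agent.K1H84.TV.exists_idx N T F u y G d S F' G' k' e' Λ κ'
  have hfew := Pool.Agent.K1H84.TV.few_violators N g1 q F k g2 g3 g4 u y I s' g5 g6 g7 g8 m g9 G d g10 g11
    S T g12 g13 t F' G' k' e' g14 g15 g16 (Λ : ℝ) (Nat.cast_nonneg Λ) (κ' : ℝ) hκ2
  rw [hi] at hfew
  obtain ⟨η, hη0, hη⟩ := hE i hfew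
  refine ⟨η, hη0, fun ξ hξ c => (hη ξ hξ c).subset ?_⟩
  rintro x ⟨⟨hx1, hx2⟩, K, hK, hNK, ψ, f1, f2, f3, f4⟩
  have hx3 := one_le_height x hx1
  refine ⟨?_, hx3, ?_⟩
  · rw [← hi]
    refine ⟨K, hK, hNK, ψ, f1, f2, f3, lt_of_lt_of_le f4 ?_⟩
    have h1 : 0 ≤ Real.log (height x) := Real.log_natCast_nonneg _
    have h2 : κ * Real.log (height x) ≤ κ' * Real.log (height x) :=
      mul_le_mul_of_nonneg_right hκ1.le h1
    show _ ≤ κ' * Real.log (height x) + proximity G d S x +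
      Λ * ∑ l, idealHeight (F' l) (G' l) (k' l) (e' l) x
    linarith
  · have h1 : -(((n : ℝ) + 1) / s - η) = -(((n : ℝ) + 1) / s) + η := by ring
    rw [h1] at hx2
    exact hx2

/-- the points of Dirichlet's theorem -/
theorem infinite_near {n : ℕ} (hn : 1 ≤ n) (ξ : Fin n → ℝ) (i0 : Fin n)
    (hirr : ∀ r : ℚ, ξ i0 ≠ r) : ∃ c : ℝ, (Near ξ c (1 + 1 / (n : ℝ))).Infinite := by
  have hnR : (0 : ℝ) < n := by exact_mod_cast hn
  set a : ℝ := 1 + 1 / (n : ℝ) with ha
  have ha0 : 0 < a := by positivity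
  set K : ℝ := 1 + ∑ i, |ξ i| with hK
  have hK1 : 1 ≤ K := by
    have : 0 ≤ ∑ i, |ξ i| := Finset.sum_nonneg fun i _ => abs_nonneg _
    linarith
  set T : Set (Fin (n + 1) → ℤ) := {x | Finset.univ.gcd x = 1 ∧ 0 < x 0 ∧
    ∀ i, |ξ i - x i.succ / x 0| ≤ (x 0 : ℝ) ^ (-a)} with hT
  -- `T` is infinite
  have hTinf : T.Infinite := by
    intro hfin
    have hpos : ∀ x : Fin (n + 1) → ℤ, 0 < |ξ i0 - x i0.succ / x 0| := by
      intro x
      rw [abs_pos, sub_ne_zero]
      have := hirr ((x i0.succ : ℚ) / x 0)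
      push_cast at this
      exact this
    obtain ⟨δ, hδ0, hδ⟩ : ∃ δ : ℝ, 0 < δ ∧ ∀ x ∈ T, δ ≤ |ξ i0 - x i0.succ / x 0| := by
      rcases T.eq_empty_or_nonempty with h | h
      · exact ⟨1, one_pos, fun x hx => by rw [h] at hx; exact absurd hx (Set.notMem_empty x)⟩
      · obtain ⟨x, -, hx2⟩ := Set.exists_min_image T (fun x => |ξ i0 - x i0.succ / x 0|) hfin h
        exact ⟨_, hpos x, hx2⟩
    obtain ⟨q, hq⟩ := exists_nat_gt (1 / δ)
    have hq0 : (0 : ℝ) < q := lt_trans (by positivity) hq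
    obtain ⟨x, hx1, hx2, hx3, hx4⟩ := Pool.Agent.K1H84.VT.dirichlet_primitive hn q
      (by exact_mod_cast hq0) ξ
    have h1 := hδ x ⟨hx1, hx2, hx4⟩
    have h2 := h1.trans (hx3 i0)
    rw [div_lt_iff₀ hδ0] at hq
    rw [le_div_iff₀ hq0] at h2
    linarith [mul_comm δ (q : ℝ)]
  refine ⟨(K + 1) ^ a, fun hfin => hTinf (hfin.subset ?_)⟩
  rintro x ⟨hx1, hx2, hx3⟩
  refine ⟨hx1, hx2.ne', fun i => (hx3 i).trans ?_⟩
  have hx0 : (1 : ℝ) ≤ x 0 := by exact_mod_cast hx2
  have hH1 : (1 : ℝ) ≤ height x := by exact_mod_cast one_le_height x hx1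
  -- the height is at most a multiple of `x 0`
  have hle : (height x : ℝ) ≤ (K + 1) * x 0 := by
    obtain ⟨l, hl⟩ := exists_height x
    refine hl.trans ?_
    refine Fin.cases ?_ (fun m => ?_) l
    · rw [abs_of_pos (by linarith)]
      nlinarith
    · have h1 := hx3 m
      have h2 : (x 0 : ℝ) ^ (-a) ≤ 1 := Real.rpow_le_one_of_one_le_of_nonpos hx0 (by linarith)
      have h3 : |ξ m| ≤ ∑ i, |ξ i| :=
        Finset.single_le_sum (f := fun i => |ξ i|) (fun i _ => abs_nonneg _) (Finset.mem_univ m)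
      have h4 : |(x m.succ : ℝ) / x 0| ≤ K + 1 := by
        have h5 : |(x m.succ : ℝ) / x 0| ≤ |ξ m| + |ξ m - x m.succ / x 0| := by
          have := abs_sub_abs_le_abs_sub ((x m.succ : ℝ) / x 0) (ξ m)
          rw [abs_sub_comm] at this
          linarith
        linarith
      rw [abs_div, abs_of_pos (show (0 : ℝ) < x 0 by linarith), div_le_iff₀ (by linarith)] at h4
      exact h4
  have hK0 : 0 < K + 1 := by linarith
  calc (x 0 : ℝ) ^ (-a) ≤ ((height x : ℝ) / (K + 1)) ^ (-a) := by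
        refine Real.rpow_le_rpow_of_nonpos (by positivity) ?_ (by linarith)
        rw [div_le_iff₀ hK0]
        linarith [mul_comm (K + 1) (x 0 : ℝ)]
    _ = (K + 1) ^ a * (height x : ℝ) ^ (-a) := by
        rw [Real.div_rpow (by linarith) hK0.le, Real.rpow_neg hK0.le a, div_inv_eq_mul, mul_comm]

/-- **The truncated Vojta inequality at typical points, for all covers and all divisors at once.** -/
theorem result (n : ℕ) :
    (∀ (M : Type) [MetricSpace M] [MeasurableSpace M] [BorelSpace M] (φ : (Fin (n + 1) → ℤ) → M)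
      (s : ℝ), 0 < s → ∃ E : Set M, μH[s] E = 0 ∧
        HoldsNear n E (fun ξ c η => Close φ ξ c (((n : ℝ) + 1) / s - η))) ∧
    (1 ≤ n → ∃ E : Set (Fin n → ℝ), volume E = 0 ∧
      (∀ ξ : Fin n → ℝ, ξ ∉ E → ∃ c : ℝ, (Near ξ c (1 + 1 / (n : ℝ))).Infinite) ∧
      HoldsNear n E (fun ξ c η => Near ξ c (1 + 1 / (n : ℝ) - η))) := by
  refine ⟨fun M _ _ _ φ s hs => metric n φ s hs, fun hn => ?_⟩
  have hnR : (0 : ℝ) < n := by exact_mod_cast hn
  obtain ⟨E, hE0, hE⟩ := metric n (M := Fin n → ℝ) (fun x i => (x i.succ : ℝ) / x 0) (n : ℝ) hnR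
  have hvol : volume E = 0 := by
    have h := hausdorffMeasure_pi_real (ι := Fin n)
    rw [Fintype.card_fin] at h
    rw [← h]
    exact hE0
  set i0 : Fin n := ⟨0, hn⟩ with hi0
  set R : Set (Fin n → ℝ) := {ξ | ∃ r : ℚ, ξ i0 = r} with hR
  have hR0 : volume R = 0 := by
    have h1 : R = ⋃ r : ℚ, {ξ : Fin n → ℝ | ξ i0 = r} := by
      ext ξ
      simp only [hR, Set.mem_ofPred_eq, Set.mem_iUnion]
    rw [h1, measure_iUnion_null_iff]
    intro r
    have h2 : ∀ᵐ ξ : Fin n → ℝ, ξ i0 ≠ r := by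
      rw [volume_pi]
      exact Measure.ae_eval_ne (μ := fun _ : Fin n => (volume : Measure ℝ)) i0 (r : ℝ)
    rw [ae_iff] at h2
    simpa using h2
  refine ⟨E ∪ R, measure_union_null hvol hR0, fun ξ hξ => ?_, ?_⟩
  · refine infinite_near hn ξ i0 fun r hr => ?_
    exact hξ (Or.inr ⟨r, hr⟩)
  · intro A _ _ _ _ _ _ N q t T F u y G d S F' G' k' e' Λ κ hadm
    obtain ⟨η, hη0, hη⟩ := hE A N q t T F u y G d S F' G' k' e' Λ κ hadm
    refine ⟨η, hη0, fun ξ hξ c => ?_⟩
    rcases lt_or_ge c 0 with hc | hc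
    · refine Set.Finite.subset Set.finite_empty ?_
      rintro x ⟨⟨h1, h2, h3⟩, -⟩
      have h4 := (abs_nonneg _).trans (h3 i0)
      have h5 : (1 : ℝ) ≤ height x := by exact_mod_cast one_le_height x h1
      have h6 : (0 : ℝ) < (height x : ℝ) ^ (-(1 + 1 / (n : ℝ) - η)) :=
        Real.rpow_pos_of_pos (by linarith) _
      nlinarith
    refine (hη ξ (fun h => hξ (Or.inl h)) c).subset ?_
    rintro x ⟨⟨h1, h2, h3⟩, h4⟩
    refine ⟨⟨h1, ?_⟩, h4⟩
    have h5 : ((n : ℝ) + 1) / n - η = 1 + 1 / (n : ℝ) - η := by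
      field_simp
    rw [h5]
    have h6 : (0 : ℝ) ≤ (height x : ℝ) ^ (-(1 + 1 / (n : ℝ) - η)) := Real.rpow_nonneg (by positivity) _
    rw [dist_pi_le_iff (by positivity)]
    intro i
    rw [Real.dist_eq]
    exact h3 i

end Pool.Agent.Results.MP_44a246_nt.TypicalPoints
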