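import Pool.Agent.K1H71.PL.Fin

/-!
# The truncated Vojta inequality on the projective line: the exact number of violators

Let `D` be the sum of `q ≥ 3` distinct rational points of the projective line over the rationals and
`S` a finite set of primes, so that `h_{K + D} = (q - 2) h + O(1)`. The conjecture predicts that
`h_{K + D}(P) < κ N_S^(1)(D, P) + C` for all `P` but finitely many if `κ > 1`. For the points of ALL
heights with `exp N_S^(1)(D, P) ≤ X` and every constant `C`: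
* the number of those with `h_{K + D}(P) ≥ κ N_S^(1)(D, P) + C` is `X ^ (min (2 / q) (1 - κ) + o(1))`
  for all `κ ≤ κ₀`, where `κ₀ > (q - 2) / q` is beyond the value where the two exponents are equal;
* it is at least `c X ^ (min (2 / q) (1 - κ))` for ALL `κ < 1`, up to the conjectured threshold.
The tails `h_{K + D}(P) ≥ log Y` have uniform bounds.
-/

set_option autoImplicit false

namespace Pool.Agent.Results.MP_44a246_nt.ViolatorsOnTheLine

open Filter Topology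

/-- `q` distinct rational points of the projective line: the zeros of `q` linear forms
`u i * a + w i * b` with integer coefficients, pairwise not proportional -/
structure Divisor (q : ℕ) where
  /-- the first coefficients -/
  u : Fin q → ℤ
  /-- the second coefficients -/
  w : Fin q → ℤ
  /-- pairwise not proportional -/
  distinct : ∀ i j, i ≠ j → u i * w j - u j * w i ≠ 0

/-- the value of the `i`-th form at `P = (a, b)` -/
def value {q : ℕ} (D : Divisor q) (P : ℤ × ℤ) (i : Fin q) : ℤ := D.u i * P.1 + D.w i * P.2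

/-- the rational points of the projective line off the divisor, written with coprime integral
coordinates (so each point is listed twice, as `(a, b)` and as `(-a, -b)`) -/
def points {q : ℕ} (D : Divisor q) : Set (ℤ × ℤ) :=
  {P | IsCoprime P.1 P.2 ∧ ∀ i, value D P i ≠ 0}

/-- the exponential of the height -/
def height (P : ℤ × ℤ) : ℕ := max P.1.natAbs P.2.natAbs

/-- the exponential of the truncated counting function `N_S^(1)(D, P)`: the product of the primes
outside `S` that divide a value, each taken once -/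
def counting {q : ℕ} (D : Divisor q) (S : Finset ℕ) (P : ℤ × ℤ) : ℕ :=
  ∏ p ∈ (∏ i, (value D P i).natAbs).primeFactors \ S, p

/-- the violators: the points off the divisor, of whatever height, with `exp N_S^(1)(D, P) ≤ X` and
`(q - 2) h(P) ≥ κ N_S^(1)(D, P) + log B` -/
def violators {q : ℕ} (D : Divisor q) (S : Finset ℕ) (κ B X : ℝ) : Set (ℤ × ℤ) :=
  {P | P ∈ points D ∧ (counting D S P : ℝ) ≤ X ∧
    B * (counting D S P : ℝ) ^ κ ≤ (height P : ℝ) ^ ((q : ℝ) - 2)}

/-- the points off the divisor with `exp N_S^(1)(D, P) ≤ X` and `(q - 2) h(P) ≥ log Y` -/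
def tail {q : ℕ} (D : Divisor q) (S : Finset ℕ) (Y X : ℝ) : Set (ℤ × ℤ) :=
  {P | P ∈ points D ∧ (counting D S P : ℝ) ≤ X ∧ Y ≤ (height P : ℝ) ^ ((q : ℝ) - 2)}

open Pool.Agent.K1H71.PL
open Pool.Agent.TH867.QF (Fm ev va Rs Rs_pos Pt ht va_pos)
open Pool.Agent.TH867.SQ (lr)
open Pool.Agent.Y679.Kf (sr sr_le lr_Vp_le Vp Vp_ne lr_rd rd)

/-- the forms of the library -/
def toFm {q : ℕ} (D : Divisor q) : Fm q := ⟨D.u, D.w, D.distinct⟩

theorem mem_points {q : ℕ} (D : Divisor q) (P : ℤ × ℤ) : P ∈ points D ↔ Pt (toFm D) P :=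
  ⟨fun h => ⟨h.1, h.2⟩, fun h => ⟨h.cop, h.ne⟩⟩

theorem prod_value {q : ℕ} (D : Divisor q) (P : ℤ × ℤ) :
    (∏ i, (value D P i).natAbs) = Vp (toFm D) P := rfl

theorem log_counting_le {q : ℕ} (D : Divisor q) (S : Finset ℕ) {P : ℤ × ℤ}
    (h : Pt (toFm D) P) : Real.log (counting D S P) ≤ sr (toFm D) P := by
  refine le_trans ?_ (lr_Vp_le h)
  rw [lr_rd]
  refine Real.log_le_log ?_ ?_
  · exact_mod_cast Finset.prod_pos fun p hp =>
      (Nat.prime_of_mem_primeFactors (Finset.mem_sdiff.1 hp).1).pos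
  · unfold counting rd
    rw [prod_value]
    exact_mod_cast Finset.prod_le_prod_of_subset_of_one_le' Finset.sdiff_subset
      fun p hp _ => (Nat.prime_of_mem_primeFactors hp).one_le

theorem counting_pos {q : ℕ} (D : Divisor q) (S : Finset ℕ) (P : ℤ × ℤ) :
    0 < counting D S P :=
  Finset.prod_pos fun _ hp => (Nat.prime_of_mem_primeFactors (Finset.mem_sdiff.1 hp).1).pos

theorem rd_le_counting {q : ℕ} (D : Divisor q) (S : Finset ℕ) (P : ℤ × ℤ) :
    rd (Vp (toFm D) P) ≤ (∏ p ∈ S, max 1 p) * counting D S P := by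
  unfold rd counting
  rw [prod_value, ← Finset.prod_sdiff (Finset.inter_subset_left
    (s₁ := (Vp (toFm D) P).primeFactors) (s₂ := S)), mul_comm]
  refine Nat.mul_le_mul ?_ (le_of_eq ?_)
  · refine (Finset.prod_le_prod' fun p _ => le_max_right 1 p).trans ?_
    exact Finset.prod_le_prod_of_subset_of_one_le' Finset.inter_subset_right
      fun p _ _ => le_max_left 1 p
  · refine Finset.prod_congr ?_ fun _ _ => rfl
    ext p
    simp only [Finset.mem_sdiff, Finset.mem_inter]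
    tauto

theorem cmp {d : ℕ} (D : Divisor (d + 3)) (S : Finset ℕ) :
    Cmp (toFm D) (fun P => (counting D S P : ℝ))
      ((Rs (toFm D) : ℝ) ^ (d + 3) * ((∏ p ∈ S, max 1 p : ℕ) : ℝ)) := by
  have hRs : (1 : ℝ) ≤ Rs (toFm D) := by exact_mod_cast Rs_pos (toFm D)
  have hS : (1 : ℝ) ≤ ((∏ p ∈ S, max 1 p : ℕ) : ℝ) := by
    exact_mod_cast Finset.prod_pos fun p _ => lt_of_lt_of_le Nat.one_pos (le_max_left 1 p)
  refine ⟨one_le_mul_of_one_le_of_one_le (one_le_pow₀ hRs) hS, fun P _ => ?_, fun P hP => ?_,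
    fun P hP => log_counting_le D S hP⟩
  · exact_mod_cast counting_pos D S P
  · have hc : (0 : ℝ) < counting D S P := by exact_mod_cast counting_pos D S P
    have h1 := sr_le hP
    rw [lr_rd] at h1
    have h2 : (rd (Vp (toFm D) P) : ℝ) ≤ ((∏ p ∈ S, max 1 p : ℕ) : ℝ) * counting D S P := by
      exact_mod_cast rd_le_counting D S P
    have h3 : (0 : ℝ) < rd (Vp (toFm D) P) := by
      exact_mod_cast Pool.Agent.Y679.Kf.rd_pos _
    have h4 : Real.log (rd (Vp (toFm D) P)) ≤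
        Real.log (((∏ p ∈ S, max 1 p : ℕ) : ℝ) * counting D S P) := Real.log_le_log h3 h2
    have h5 : Real.log ((Rs (toFm D) : ℝ) ^ (d + 3) * ((∏ p ∈ S, max 1 p : ℕ) : ℝ) *
        counting D S P) = ((d + 3 : ℕ) : ℝ) * Real.log (Rs (toFm D)) +
          Real.log (((∏ p ∈ S, max 1 p : ℕ) : ℝ) * counting D S P) := by
      rw [mul_assoc, Real.log_mul (by positivity) (by positivity), Real.log_pow]
    rw [h5]
    linarith

theorem pow_eq (d : ℕ) (H : ℝ) : H ^ (((d + 3 : ℕ) : ℝ) - 2) = H ^ (d + 1) := by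
  rw [← Real.rpow_natCast]
  congr 1
  push_cast
  ring

theorem viol_eq {d : ℕ} (D : Divisor (d + 3)) (S : Finset ℕ) (κ B X : ℝ) :
    violators D S κ B X = Vt (toFm D) (fun P => (counting D S P : ℝ)) κ B X := by
  ext P
  unfold violators Vt
  rw [Set.mem_setOf_eq, Set.mem_setOf_eq, mem_points, pow_eq]
  rfl

theorem tail_eq {d : ℕ} (D : Divisor (d + 3)) (S : Finset ℕ) (Y X : ℝ) :
    tail D S Y X = Wt (toFm D) (fun P => (counting D S P : ℝ)) Y X := by
  ext P
  unfold tail Wt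
  rw [Set.mem_setOf_eq, Set.mem_setOf_eq, mem_points, pow_eq]
  rfl

/-- **The violators of the truncated Vojta inequality on the projective line, for `q` rational
points.** -/
theorem result (q : ℕ) (hq : 3 ≤ q) (D : Divisor q) (S : Finset ℕ) :
    (∀ X : ℝ, {P | P ∈ points D ∧ (counting D S P : ℝ) ≤ X}.Finite) ∧
    (∃ κ₀ : ℝ, ((q : ℝ) - 2) / q < κ₀ ∧ κ₀ < 1 ∧
      (∀ κ B : ℝ, κ ≤ κ₀ → 0 < B →
        Tendsto (fun X : ℝ => Real.log ((violators D S κ B X).ncard : ℝ) / Real.log X) atTop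
          (𝓝 (min (2 / (q : ℝ)) (1 - κ)))) ∧
      (∀ ε : ℝ, 0 < ε → ∃ C : ℝ, 0 < C ∧ ∀ X Y : ℝ, 1 ≤ X → 1 ≤ Y → Y ≤ X ^ κ₀ →
        ((tail D S Y X).ncard : ℝ) ≤ C * (X ^ (1 + ε) / Y))) ∧
    (∃ c : ℝ, 0 < c ∧ ∀ X Y : ℝ, 1 ≤ X → X ^ (((q : ℝ) - 2) / q) ≤ Y → Y ≤ c * X →
      c * (X / Y) ≤ ((tail D S Y X).ncard : ℝ)) ∧
    (∀ κ B : ℝ, κ < 1 → 0 < B → ∃ c X₀ : ℝ, 0 < c ∧ ∀ X : ℝ, X₀ ≤ X →
      c * X ^ (min (2 / (q : ℝ)) (1 - κ)) ≤ ((violators D S κ B X).ncard : ℝ)) := by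
  obtain ⟨d, rfl⟩ : ∃ d, q = d + 3 := ⟨q - 3, by omega⟩
  have hd0 : (0 : ℝ) ≤ d := Nat.cast_nonneg _
  have hθ : (((d + 3 : ℕ) : ℝ) - 2) / ((d + 3 : ℕ) : ℝ) = ((d : ℝ) + 1) / ((d : ℝ) + 3) := by
    push_cast
    congr 1
    ring
  have hq2 : 2 / ((d + 3 : ℕ) : ℝ) = 2 / ((d : ℝ) + 3) := by push_cast; rfl
  have hc := cmp D S
  rw [hθ, hq2]
  obtain ⟨κ₁, a1, a2, a3⟩ := Vt_exp (toFm D)
  obtain ⟨κ₂, b1, b2⟩ := Wt_le (toFm D)
  refine ⟨fun X => ?_, ⟨min κ₁ κ₂, lt_min a1 b1, (min_le_left _ _).trans_lt a2, ?_, ?_⟩, ?_, ?_⟩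
  · refine (At_fin hc X).subset fun P hP => ?_
    exact ⟨(mem_points D P).1 hP.1, hP.2⟩
  · intro κ B hκ0 hB
    simp only [viol_eq]
    exact a3 κ (hκ0.trans (min_le_left _ _)) _ B _ hB hc
  · intro ε hε
    obtain ⟨C, hC, h⟩ := b2 _ ε hc.hR hε
    refine ⟨C, hC, fun X Y hX hY hYX => ?_⟩
    rw [tail_eq]
    exact h _ hc X Y hX hY (hYX.trans (Real.rpow_le_rpow_of_exponent_le hX (min_le_right _ _)))
  · obtain ⟨c, hc0, h⟩ := Wt_ge (toFm D)
    refine ⟨c, hc0, fun X Y hX hXY hYX => ?_⟩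
    rw [tail_eq]
    exact h _ _ hc X Y hX hXY hYX
  · intro κ B hκ1 hB
    obtain ⟨c, hc0, X₀, h⟩ := Vt_ge (toFm D) hκ1 hB
    refine ⟨c, X₀, hc0, fun X hX => ?_⟩
    rw [viol_eq]
    exact h _ _ hc X hX

end Pool.Agent.Results.MP_44a246_nt.ViolatorsOnTheLine
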